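import Pool.Agent.Q278.CycCong
import Pool.Agent.Q278.Anti

set_option autoImplicit false

/-! The `q`-supercongruence for `S_p(q)` modulo `Φ_{p²}(q) [p]^5`, for every prime `p`. -/

namespace Pool.Agent.Results.MP_9fe52c_nt.Full

open Finset Polynomial

/-- The indeterminate `q`. -/
noncomputable abbrev q : RatFunc ℚ := RatFunc.X

/-- The `q`-integer `[m] = (1 - q ^ m) / (1 - q)`. -/
noncomputable def qint (m : ℕ) : RatFunc ℚ := (1 - q ^ m) / (1 - q)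

/-- The `q`-shifted factorial `(a; Q)_k`. -/
noncomputable def poch (a Q : RatFunc ℚ) (k : ℕ) : RatFunc ℚ := ∏ i ∈ range k, (1 - a * Q ^ i)

/-- The sum `S_p(q)`. -/
noncomputable def S (p : ℕ) : RatFunc ℚ := ∑ j ∈ range p, qint (2 * (p + 1) * j + 1) *
  (poch q (q ^ (p + 1)) j / poch (q ^ (p + 1)) (q ^ (p + 1)) j) ^ (2 * (p + 1)) *
    q ^ ((p ^ 2 - 1) * j)

/-- `A ≡ B (mod P)`: the difference is a fraction with denominator coprime to `P` and numerator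
divisible by `P`. -/
def Cong (P : ℚ[X]) (A B : RatFunc ℚ) : Prop := ∃ a b : ℚ[X], IsCoprime b P ∧ P ∣ a ∧
  A - B = algebraMap ℚ[X] (RatFunc ℚ) a / algebraMap ℚ[X] (RatFunc ℚ) b

/-- `Φ_m(q)` as a rational function. -/
noncomputable def Φ (m : ℕ) : RatFunc ℚ := algebraMap ℚ[X] (RatFunc ℚ) (cyclotomic m ℚ)

/-- The constant `c_p = p (p - 1) (p + 1) ^ 2 (2 p + 1) / 72`. -/
noncomputable def c (p : ℕ) : RatFunc ℚ := (p : RatFunc ℚ) * (p - 1) * (p + 1) ^ 2 * (2 * p + 1) / 72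

/-- The geometric sum `1 + q + ⋯ + q ^ (p - 1)` as a polynomial, i.e. `[p]`. -/
noncomputable def qintPoly (p : ℕ) : ℚ[X] := ∑ i ∈ range p, X ^ i

theorem qintPoly_eq {p : ℕ} (hp : p.Prime) : qintPoly p = cyclotomic p ℚ := by
  have := Fact.mk hp
  rw [cyclotomic_prime]; rfl

theorem one_sub_q_ne : (1 - q) ≠ 0 := by
  apply Q278.Cyc.ne_zero_of_ev (η := 0)
  rw [Q278.Cyc.ev_sub (Q278.Cyc.Reg 0).one_mem (Q278.Cyc.X_mem 0), Q278.Cyc.ev_one,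
    Q278.Cyc.ev_X]
  norm_num

/-- `(1 - q) S_p(q)` as a very-well-poised sum. -/
theorem S_eq' {p : ℕ} (hp : p.Prime) : (1 - q) * S p = ∑ j ∈ range p,
    (1 - q⁻¹ ^ p * (q ^ (p + 1)) ^ (2 * j + 1)) *
      (∏ i ∈ range j, (1 - q⁻¹ ^ p * (q ^ (p + 1)) ^ (i + 1)) / (1 - (q ^ (p + 1)) ^ (i + 1))) ^
        (2 * (p + 1)) * ((q ^ (p + 1)) ^ (p - 1)) ^ j := by
  unfold S
  rw [mul_sum]
  apply sum_congr rfl
  intro j _
  have hq0 : q ≠ 0 := Q278.Cyc.q_ne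
  have huQ : q⁻¹ ^ p * q ^ (p + 1) = q := by
    rw [inv_pow, pow_succ]; field_simp
  have e1 : (1 - q) * qint (2 * (p + 1) * j + 1) =
      1 - q⁻¹ ^ p * (q ^ (p + 1)) ^ (2 * j + 1) := by
    unfold qint
    rw [mul_div_cancel₀ _ one_sub_q_ne]
    congr 1
    have e2 : q⁻¹ ^ p * (q ^ (p + 1)) ^ (2 * j + 1) = q * (q ^ (p + 1)) ^ (2 * j) := by
      rw [pow_succ]
      linear_combination (q ^ (p + 1)) ^ (2 * j) * huQ
    rw [e2, ← pow_mul, ← pow_succ']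
    congr 1; ring
  have e2 : poch q (q ^ (p + 1)) j / poch (q ^ (p + 1)) (q ^ (p + 1)) j =
      ∏ i ∈ range j, (1 - q⁻¹ ^ p * (q ^ (p + 1)) ^ (i + 1)) / (1 - (q ^ (p + 1)) ^ (i + 1)) := by
    unfold poch
    rw [← prod_div_distrib]
    apply prod_congr rfl
    intro i _
    have e3 : q⁻¹ ^ p * (q ^ (p + 1)) ^ (i + 1) = q * (q ^ (p + 1)) ^ i := by
      rw [pow_succ]
      linear_combination (q ^ (p + 1)) ^ i * huQ
    have e4 : q ^ (p + 1) * (q ^ (p + 1)) ^ i = (q ^ (p + 1)) ^ (i + 1) := (pow_succ' _ _).symm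
    rw [e3, e4]
  have e3 : q ^ ((p ^ 2 - 1) * j) = ((q ^ (p + 1)) ^ (p - 1)) ^ j := by
    have h5 : p ^ 2 - 1 = (p + 1) * (p - 1) := by
      have := hp.one_lt.le
      zify [this, Nat.one_le_pow 2 p hp.pos]
      ring
    rw [← pow_mul, ← pow_mul, h5, mul_assoc]
  rw [← e1, e2, e3]
  ring

theorem ratConst (ζ : ℂ) (c : ℚ) : Q278.Cyc.ev ζ (c : RatFunc ℚ) = (c : ℂ) := by
  have : ((c : ℚ) : RatFunc ℚ) = algebraMap ℚ[X] (RatFunc ℚ) (C c) := by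
    rw [RatFunc.algebraMap_C]; exact (eq_ratCast RatFunc.C c).symm
  rw [this, Q278.Cyc.ev_poly, eval₂_C]; simp

theorem ratMem (ζ : ℂ) (c : ℚ) : (c : RatFunc ℚ) ∈ Q278.Cyc.Reg ζ := by
  have : ((c : ℚ) : RatFunc ℚ) = algebraMap ℚ[X] (RatFunc ℚ) (C c) := by
    rw [RatFunc.algebraMap_C]; exact (eq_ratCast RatFunc.C c).symm
  rw [this]
  exact Q278.Cyc.poly_mem _

theorem c_eq (p : ℕ) : c p = (((p : ℚ) * (p - 1) * (p + 1) ^ 2 * (2 * p + 1) / 72 : ℚ) :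
    RatFunc ℚ) := by
  unfold c; push_cast; rfl

/-- The value of `Φ_{p²}` at a primitive `p`-th root of unity is `p`. -/
theorem ev_Φ2 {p : ℕ} (hp : p.Prime) {ζ : ℂ} (hζ : IsPrimitiveRoot ζ p) :
    Q278.Cyc.ev ζ (Φ (p ^ 2)) = p := by
  unfold Φ
  have := Fact.mk hp
  rw [Q278.Cyc.ev_poly, show p ^ 2 = p ^ (1 + 1) by norm_num,
    cyclotomic_prime_pow_eq_geom_sum hp, eval₂_finsetSum]
  simp [eval₂_pow, hζ.pow_eq_one]

theorem modp {p : ℕ} (hp : p.Prime) {ζ : ℂ} (hζ : IsPrimitiveRoot ζ p) :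
    S p - -(c p * q * (1 - q) ^ 2 * Φ p ^ 4 * Φ (p ^ 2)) ∈
      Q278.Loc.I (Q278.Cyc.Reg ζ) (Q278.Cyc.Φ p) 5 := by
  have hd : ¬ p ∣ (p + 1) := by
    intro h
    have h1 : p ∣ 1 := (Nat.dvd_add_right dvd_rfl).1 h
    exact hp.one_lt.ne' (Nat.dvd_one.1 h1)
  have hyp := Q278.Cyc.hyp hp hd hζ
  have hS : (1 - q) * S p = Q278.VWP.G (q ^ (p + 1)) (q⁻¹ ^ p) (p + 1) p := by
    rw [Q278.Cyc.G_eq hyp]
    exact S_eq' hp
  have h1q : (1 - q) ∈ Q278.Cyc.Reg ζ := (Q278.Cyc.Reg ζ).sub_mem (Q278.Cyc.Reg ζ).one_mem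
    (Q278.Cyc.X_mem ζ)
  have h1qev : Q278.Cyc.ev ζ (1 - q) = 1 - ζ := by
    rw [Q278.Cyc.ev_sub (Q278.Cyc.Reg ζ).one_mem (Q278.Cyc.X_mem ζ), Q278.Cyc.ev_one,
      Q278.Cyc.ev_X]
  have hζ0 : ζ ≠ 0 := hζ.ne_zero hp.ne_zero
  have hcm : c p ∈ Q278.Cyc.Reg ζ := by rw [c_eq]; exact ratMem ζ _
  have hΦm : Φ (p ^ 2) ∈ Q278.Cyc.Reg ζ := Q278.Cyc.poly_mem _
  have hm1 : c p * q ∈ Q278.Cyc.Reg ζ := (Q278.Cyc.Reg ζ).mul_mem hcm (Q278.Cyc.X_mem ζ)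
  have hm2 : c p * q * (1 - q) ^ 2 ∈ Q278.Cyc.Reg ζ :=
    (Q278.Cyc.Reg ζ).mul_mem hm1 ((Q278.Cyc.Reg ζ).pow_mem h1q 2)
  have hm3 : c p * q * (1 - q) ^ 2 * Φ (p ^ 2) ∈ Q278.Cyc.Reg ζ :=
    (Q278.Cyc.Reg ζ).mul_mem hm2 hΦm
  have := Q278.Cyc.main hp hd hζ hS ((Q278.Cyc.Reg ζ).neg_mem hm3) ?_
  · convert this using 1
    unfold Φ Q278.Cyc.Φ
    ring
  · rw [Q278.Cyc.ev_neg hm3, Q278.Cyc.ev_mul hm2 hΦm, Q278.Cyc.ev_mul hm1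
      ((Q278.Cyc.Reg ζ).pow_mem h1q 2), Q278.Cyc.ev_mul hcm (Q278.Cyc.X_mem ζ), Q278.Cyc.ev_X,
      Q278.Cyc.ev_pow h1q, h1qev, ev_Φ2 hp hζ, c_eq, ratConst]
    have h2 : ζ⁻¹ ^ (p + 1) = ζ⁻¹ := by
      rw [pow_succ, inv_pow, hζ.pow_eq_one, inv_one, one_mul]
    rw [h2]
    push_cast
    field_simp
    ring

theorem modp2 {p : ℕ} (hp : p.Prime) {η : ℂ} (hη : IsPrimitiveRoot η (p ^ 2)) :
    S p - -(c p * q * (1 - q) ^ 2 * Φ p ^ 4 * Φ (p ^ 2)) ∈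
      Q278.Loc.I (Q278.Cyc.Reg η) (Q278.Cyc.Φ (p ^ 2)) 1 := by
  have hp2 : 0 < p ^ 2 := by have := hp.pos; positivity
  have hη0 : η ≠ 0 := hη.ne_zero hp2.ne'
  have h1q : (1 - q) ∈ Q278.Cyc.Reg η := (Q278.Cyc.Reg η).sub_mem (Q278.Cyc.Reg η).one_mem
    (Q278.Cyc.X_mem η)
  have h1qev : Q278.Cyc.ev η (1 - q) = 1 - η := by
    rw [Q278.Cyc.ev_sub (Q278.Cyc.Reg η).one_mem (Q278.Cyc.X_mem η), Q278.Cyc.ev_one,
      Q278.Cyc.ev_X]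
  have h1q0 : Q278.Cyc.ev η (1 - q) ≠ 0 := by
    rw [h1qev]
    intro h
    have h2 : 1 < p ^ 2 := Nat.one_lt_pow two_ne_zero hp.one_lt
    exact hη.ne_one h2 (sub_eq_zero.1 h).symm
  have hcm : c p ∈ Q278.Cyc.Reg η := by rw [c_eq]; exact ratMem η _
  have hΦm : ∀ m, Φ m ∈ Q278.Cyc.Reg η := fun m => Q278.Cyc.poly_mem _
  have hm3 : c p * q * (1 - q) ^ 2 * Φ p ^ 4 ∈ Q278.Cyc.Reg η :=
    (Q278.Cyc.Reg η).mul_mem ((Q278.Cyc.Reg η).mul_mem ((Q278.Cyc.Reg η).mul_mem hcm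
      (Q278.Cyc.X_mem η)) ((Q278.Cyc.Reg η).pow_mem h1q 2)) ((Q278.Cyc.Reg η).pow_mem (hΦm p) 4)
  -- the factors
  have hu : q⁻¹ ^ p ∈ Q278.Cyc.Reg η := Q278.Cyc.qi_mem hη0 p
  have hQm : ∀ k : ℕ, (q ^ (p + 1)) ^ k ∈ Q278.Cyc.Reg η := fun k =>
    (Q278.Cyc.Reg η).pow_mem (Q278.Cyc.q_pow_mem η (p + 1)) k
  have hnum : ∀ k : ℕ, 1 - q⁻¹ ^ p * (q ^ (p + 1)) ^ k ∈ Q278.Cyc.Reg η := fun k =>
    (Q278.Cyc.Reg η).sub_mem (Q278.Cyc.Reg η).one_mem ((Q278.Cyc.Reg η).mul_mem hu (hQm k))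
  have hden : ∀ k : ℕ, 1 - (q ^ (p + 1)) ^ k ∈ Q278.Cyc.Reg η := fun k =>
    (Q278.Cyc.Reg η).sub_mem (Q278.Cyc.Reg η).one_mem (hQm k)
  set Q := η ^ (p + 1) with hQdef
  have hQev : ∀ k : ℕ, Q278.Cyc.ev η ((q ^ (p + 1)) ^ k) = Q ^ k := fun k => by
    rw [Q278.Cyc.ev_pow (Q278.Cyc.q_pow_mem η (p + 1)), Q278.Cyc.ev_q_pow]
  have hevnum : ∀ k : ℕ, Q278.Cyc.ev η (1 - q⁻¹ ^ p * (q ^ (p + 1)) ^ (k + 1)) =
      1 - η * Q ^ k := fun k => by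
    rw [Q278.Cyc.ev_sub (Q278.Cyc.Reg η).one_mem ((Q278.Cyc.Reg η).mul_mem hu (hQm _)),
      Q278.Cyc.ev_one, Q278.Cyc.ev_mul hu (hQm _), hQev, Q278.Cyc.ev_qi hη0]
    have : η⁻¹ ^ p * Q = η := by
      rw [hQdef, inv_pow, pow_succ, inv_mul_cancel_left₀ (pow_ne_zero _ hη0)]
    rw [pow_succ]
    linear_combination (-(Q ^ k)) * this
  have hevden : ∀ k : ℕ, Q278.Cyc.ev η (1 - (q ^ (p + 1)) ^ k) = 1 - Q ^ k := fun k => by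
    rw [Q278.Cyc.ev_sub (Q278.Cyc.Reg η).one_mem (hQm _), Q278.Cyc.ev_one, hQev]
  have hQne : ∀ i, i < p - 1 → 1 - Q ^ (i + 1) ≠ 0 := by
    intro i hi h
    have h1 : η ^ ((p + 1) * (i + 1)) = 1 := by
      rw [pow_mul]; exact (sub_eq_zero.1 h).symm
    have h2 := (hη.pow_eq_one_iff_dvd _).1 h1
    have h3 : p ∣ (p + 1) * (i + 1) := (dvd_pow_self p two_ne_zero).trans h2
    rcases (Nat.Prime.dvd_mul hp).1 h3 with h4 | h4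
    · have h5 : p ∣ 1 := (Nat.dvd_add_right dvd_rfl).1 h4
      exact hp.one_lt.ne' (Nat.dvd_one.1 h5)
    · have := Nat.le_of_dvd (by omega) h4
      omega
  have hprodm : ∀ j ∈ range p, ∀ i ∈ range j, (1 - q⁻¹ ^ p * (q ^ (p + 1)) ^ (i + 1)) /
      (1 - (q ^ (p + 1)) ^ (i + 1)) ∈ Q278.Cyc.Reg η := by
    intro j hj i hi
    have hj' := mem_range.1 hj
    have hi' := mem_range.1 hi
    rw [div_eq_mul_inv]
    refine (Q278.Cyc.Reg η).mul_mem (hnum _) (Q278.Cyc.inv_mem (hden _) ?_)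
    rw [hevden]
    exact hQne i (by omega)
  have hprodev : ∀ j ∈ range p, Q278.Cyc.ev η (∏ i ∈ range j,
      (1 - q⁻¹ ^ p * (q ^ (p + 1)) ^ (i + 1)) / (1 - (q ^ (p + 1)) ^ (i + 1))) =
      Q278.Anti.P η Q j := by
    intro j hj
    rw [Q278.Cyc.ev_prod (hprodm j hj)]
    unfold Q278.Anti.P
    apply prod_congr rfl
    intro i hi
    have hj' := mem_range.1 hj
    have hi' := mem_range.1 hi
    rw [Q278.Cyc.ev_div (hnum _) (hden _) (by rw [hevden]; exact hQne i (by omega)), hevnum,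
      hevden]
  have hterm : ∀ j ∈ range p, (1 - q⁻¹ ^ p * (q ^ (p + 1)) ^ (2 * j + 1)) *
      (∏ i ∈ range j, (1 - q⁻¹ ^ p * (q ^ (p + 1)) ^ (i + 1)) / (1 - (q ^ (p + 1)) ^ (i + 1))) ^
        (2 * (p + 1)) * ((q ^ (p + 1)) ^ (p - 1)) ^ j ∈ Q278.Cyc.Reg η := by
    intro j hj
    exact (Q278.Cyc.Reg η).mul_mem ((Q278.Cyc.Reg η).mul_mem (hnum _)
      ((Q278.Cyc.Reg η).pow_mem ((Q278.Cyc.Reg η).prod_mem (hprodm j hj)) _))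
      ((Q278.Cyc.Reg η).pow_mem (hQm _) _)
  have hSm : (1 - q) * S p ∈ Q278.Cyc.Reg η := by
    rw [S_eq' hp]; exact (Q278.Cyc.Reg η).sum_mem hterm
  have hSev : Q278.Cyc.ev η ((1 - q) * S p) = 0 := by
    rw [S_eq' hp, Q278.Cyc.ev_sum hterm]
    have haN : η * Q ^ (p - 1) = 1 := by
      rw [hQdef, ← pow_mul, ← pow_succ']
      have : (p + 1) * (p - 1) + 1 = p ^ 2 := by
        have := hp.one_lt.le
        zify [this]; ring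
      rw [this, hη.pow_eq_one]
    have hQp : Q ^ ((p - 1 + 1) ^ 2) = 1 := by
      rw [show p - 1 + 1 = p by have := hp.pos; omega, hQdef, ← pow_mul, mul_comm, pow_mul,
        hη.pow_eq_one, one_pow]
    have h1 := Q278.Anti.anti haN hQne hQp
    rw [show p - 1 + 1 = p by have := hp.pos; omega,
      show p - 1 + 2 = p + 1 by have := hp.pos; omega] at h1
    rw [← h1]
    apply sum_congr rfl
    intro j hj
    rw [Q278.Cyc.ev_mul ((Q278.Cyc.Reg η).mul_mem (hnum _)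
      ((Q278.Cyc.Reg η).pow_mem ((Q278.Cyc.Reg η).prod_mem (hprodm j hj)) _))
      ((Q278.Cyc.Reg η).pow_mem (hQm _) _), Q278.Cyc.ev_mul (hnum _)
      ((Q278.Cyc.Reg η).pow_mem ((Q278.Cyc.Reg η).prod_mem (hprodm j hj)) _),
      Q278.Cyc.ev_pow ((Q278.Cyc.Reg η).prod_mem (hprodm j hj)), hprodev j hj, hevnum,
      Q278.Cyc.ev_pow (hQm _), hQev]
  have hS1 : S p ∈ Q278.Loc.I (Q278.Cyc.Reg η) (Q278.Cyc.Φ (p ^ 2)) 1 :=
    Q278.Loc.of_unit_mul (Q278.Cyc.ne_zero_of_ev h1q0) (Q278.Cyc.inv_mem h1q h1q0)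
      (Q278.Cyc.mem_I_one hp2 hη hSm hSev)
  refine (Q278.Loc.I (Q278.Cyc.Reg η) (Q278.Cyc.Φ (p ^ 2)) 1).sub_mem hS1
    ((Q278.Loc.I (Q278.Cyc.Reg η) (Q278.Cyc.Φ (p ^ 2)) 1).neg_mem ?_)
  refine Q278.Loc.mul_O hm3 ?_
  have := Q278.Loc.self_pow (O := Q278.Cyc.Reg η) (π := Q278.Cyc.Φ (p ^ 2)) 1
  rwa [pow_one] at this

theorem result : ∀ p : ℕ, p.Prime → Cong (cyclotomic (p ^ 2) ℚ * qintPoly p ^ 5) (S p)
    (-(c p * q * (1 - q) ^ 2 * (qint p) ^ 4 * Φ (p ^ 2))) := by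
  intro p hp
  have hp2 : 0 < p ^ 2 := by have := hp.pos; positivity
  have hζ := Complex.isPrimitiveRoot_exp p hp.ne_zero
  have hη := Complex.isPrimitiveRoot_exp (p ^ 2) hp2.ne'
  have h1 := modp hp hζ
  have h2 := modp2 hp hη
  have hqint : qint p = Φ p := by
    have := Fact.mk hp
    have h3 := cyclotomic_prime_mul_X_sub_one ℚ p
    have h4 := congrArg (algebraMap ℚ[X] (RatFunc ℚ)) h3
    simp only [map_mul, map_sub, map_pow, map_one, RatFunc.algebraMap_X] at h4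
    unfold qint Φ
    rw [div_eq_iff one_sub_q_ne]
    linear_combination h4
  rw [hqint, qintPoly_eq hp]
  obtain ⟨a1, b1⟩ := Q278.Cyc.num_dvd hp.pos hζ h1
  obtain ⟨a2, b2⟩ := Q278.Cyc.num_dvd hp2 hη h2
  have hne : p ^ 2 ≠ p := by
    have := hp.one_lt
    nlinarith
  refine ⟨RatFunc.num _, RatFunc.denom _, ?_, ?_, (RatFunc.num_div_denom _).symm⟩
  · exact b2.mul_right b1.pow_right
  · rw [pow_one] at a2
    exact (cyclotomic.isCoprime_rat hne).pow_right.mul_dvd a2 a1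

end Pool.Agent.Results.MP_9fe52c_nt.Full
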